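import Pool.Agent.H24.UG.T7
import Pool.Agent.H95.AG.CB2

/-!
UNIFORM LOCAL GAP (`MP_c59857_nt`), board `ulg_modules`, row UC2: the end of the descent.
-/

set_option autoImplicit false

open MeasureTheory ProbabilityTheory Filter Topology Finset
open scoped Nat ENNReal

namespace Pool.Agent.H13.UG

open Pool.Agent.H24.UG
open Pool.Agent.H40.AG (QQ dg rt_le inv_le inv_rt)
open Pool.Agent.H67.AG (avgP ul Inv Rt Av SA kap JJ TT InvZ nxt triv tow XN PN TN XX PX TX prX Fac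
  Tup dl Dlt Mis bd κ₀ Sw SwE)
open Pool.Agent.H95.AG (qq_mem mis_meas inv_pair)

theorem pf_UC2 (hnxi : Pool.Agent.H67.AG.T_NXI) (hfi : T_UFI) (hmem : Pool.Agent.H40.AG.T_MEM)
    (hpxl : Pool.Agent.H40.AG.T_PXL) (hqqa : Pool.Agent.H40.AG.T_QQA)
    (hqqt : Pool.Agent.H40.AG.T_QQT) : T_UC2 := by
  intro c Z hZ hmid
  obtain ⟨w, X1, X1', R, θ, hR, hX1, hXg, hX1', hsd, hTR, hRJ, hR1, hR2, hxor, hbig⟩ := hmid
  obtain ⟨hZ', hle, hrt⟩ := hnxi c.X c.μ c.T Z c.erg hZ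
  have hT : MeasurePreserving c.T c.μ c.μ := c.erg.toMeasurePreserving
  obtain ⟨q1, q2, q3, q4⟩ := hqqt c.X c.μ c.T (nxt c.μ c.T Z) R hT hZ' hR1 hR2 hTR
  have q5 := hqqa c.X c.μ Z (nxt c.μ c.T Z) R hle hRJ
  set Q := QQ c.μ (nxt c.μ c.T Z) R with hQ
  have hW : 0 < c.W w := Nat.mul_pos c.Qpos (Nat.factorial_pos w)
  have hθ : 0 ≤ θ := le_trans measureReal_nonneg hsd
  have hm1 : MeasurableSet X1 := rt_le _ _ hX1
  have hm1' : MeasurableSet X1' := inv_le _ _ _ hX1'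
  have hz : MeasurableSet[(nxt c.μ c.T Z).1] X1' := hrt _ (inv_rt c.T hW _ hX1')
  have hx := qq_mem hmem hpxl c.X c.μ (nxt c.μ c.T Z) R hR1 hR2 X1' hz
  rw [← hQ] at hx
  have hx := hx.trans hxor
  obtain ⟨i1, i2⟩ := inv_pair c.T (c.W w) hX1'
  set B : Set (c.X × c.X) := {q | q.1 ∈ X1' ∧ q.2 ∈ X1' ∧
    Mis Q (Inv (TT c.T) (c.W w)) c.D1 c.D2 q ≤ c.γ / 4} with hB
  have hBm : MeasurableSet[Inv (TT c.T) (c.W w)] B := by
    have i3 : MeasurableSet[Inv (TT c.T) (c.W w)]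
        {q | Mis Q (Inv (TT c.T) (c.W w)) c.D1 c.D2 q ≤ c.γ / 4} :=
      mis_meas (Inv (TT c.T) (c.W w)) Q c.D1 c.D2 measurableSet_Iic
    exact @MeasurableSet.inter _ (Inv (TT c.T) (c.W w)) _ _ i1
      (@MeasurableSet.inter _ (Inv (TT c.T) (c.W w)) _ _ i2 i3)
  have hbig2 : 8 * θ < Q.real B + θ := by
    refine hbig.trans_le ?_
    have hsub : {q : c.X × c.X | q.1 ∈ X1' ∧
        Mis Q (Inv (TT c.T) (c.W w)) c.D1 c.D2 q ≤ c.γ / 4} ⊆
        B ∪ {q | q.1 ∈ X1' ∧ q.2 ∉ X1'} := by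
      rintro q ⟨a, b⟩
      by_cases h : q.2 ∈ X1'
      · exact Or.inl ⟨a, h, b⟩
      · exact Or.inr ⟨a, h⟩
    refine (measureReal_mono hsub).trans ((measureReal_union_le _ _).trans ?_)
    linarith
  have hd1 : Q.real {q | q.1 ∈ X1' \ X1} ≤ θ := by
    have : Q.real {q | q.1 ∈ X1' \ X1} = c.μ.real (X1' \ X1) := by
      unfold Measure.real
      congr 1
      exact q3.measure_preimage (hm1'.diff hm1).nullMeasurableSet
    rw [this]
    refine le_trans (measureReal_mono ?_) hsd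
    intro x hx
    exact Or.inr hx
  have hd2 : Q.real {q | q.2 ∈ X1' \ X1} ≤ θ := by
    have : Q.real {q | q.2 ∈ X1' \ X1} = c.μ.real (X1' \ X1) := by
      unfold Measure.real
      congr 1
      exact q4.measure_preimage (hm1'.diff hm1).nullMeasurableSet
    rw [this]
    refine le_trans (measureReal_mono ?_) hsd
    intro x hx
    exact Or.inr hx
  refine hfi c Z Q (c.W w) X1 B (2 * θ) hZ q2 q5 hW hX1 hXg hBm ?_ ?_ ?_
  · exact ae_of_all _ fun q hq => hq.2.2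
  · have hsub : B \ {q | q.1 ∈ X1 ∧ q.2 ∈ X1} ⊆
        {q | q.1 ∈ X1' \ X1} ∪ {q | q.2 ∈ X1' \ X1} := by
      rintro q ⟨⟨a, b, -⟩, hn⟩
      by_cases h : q.1 ∈ X1
      · exact Or.inr ⟨b, fun h2 => hn ⟨h, h2⟩⟩
      · exact Or.inl ⟨a, h⟩
    refine (measureReal_mono hsub).trans ((measureReal_union_le _ _).trans ?_)
    linarith
  · linarith

end Pool.Agent.H13.UG
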